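import Pool.Agent.BEB.Defs

/-!
# Squad BEO (MP_be01ff_an): balls in every odd dimension.

THEOREM. For odd `d ≥ 3` and `R > 0` the ball of `ℝ^d` has a Dirichlet eigenvalue `l` such that
`n² l` is not a Dirichlet eigenvalue for every `n ≥ 2`. PAPER: port of squad BEB (`ℝ³`, half ball,
polynomials odd in `x₂`) to `ℝ^d`, `d = 2c+3`, without any parity condition: polynomials in `d`
variables, `h_L(x) = Σ_k cf L k x^(2k)` (spherical Bessel functions), a harmonic polynomial of degree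
`l` goes with `h_(l+c)`. `l = (x0/R)²`, `h_(c+1)(x0) = 0`, eigenfunction `x_0 h_(c+1)(x0 |x|/R)`.
For most rows: copy the file of squad BEB named in the comment and generalize it.
All the rows can be started at once: `uses` = hypotheses of your theorem, in this order.
-/

namespace Pool.Agent.BEO

open Set Filter Topology MeasureTheory
open scoped InnerProductSpace ENNReal
open Pool.Agent.BE01
open Pool.Agent.BEB (cf hs)

noncomputable section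

/-- Polynomials in `d` variables. -/
abbrev Pl (d : ℕ) := MvPolynomial (Fin d) ℝ

/-- The ball. -/
def BB (d : ℕ) (R : ℝ) : Set (En d) := Metric.ball (0 : En d) R

/-- The value of a polynomial. -/
def ev {d : ℕ} (P : Pl d) (x : En d) : ℝ := MvPolynomial.eval (fun i => x i) P

/-- The Laplacian of a polynomial. -/
def lap {d : ℕ} (P : Pl d) : Pl d := ∑ i : Fin d, MvPolynomial.pderiv i (MvPolynomial.pderiv i P)

/-- The polynomial `|x|²`. -/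
def rho (d : ℕ) : Pl d := ∑ i : Fin d, MvPolynomial.X i ^ 2

/-- `H` is a harmonic polynomial, homogeneous of degree `l`. -/
def Har {d : ℕ} (l : ℕ) (H : Pl d) : Prop := H.IsHomogeneous l ∧ lap H = 0

/-- ARO: zeros of the spherical Bessel functions (helper93). -/
def AroStmt : Prop := ∀ L : ℕ, 1 ≤ L → ∃ x0 : ℝ, 0 < x0 ∧ hs L x0 = 0 ∧
  ∀ n L' : ℕ, 2 ≤ n → hs L' (n * x0) ≠ 0

/-- LPO (no hypotheses; compare Helper52_BEB/LPF.lean). -/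
def LpoStmt : Prop := ∀ (d l k : ℕ) (H : Pl d), H.IsHomogeneous l → lap H = 0 →
  lap (rho d ^ (k + 1) * H) =
    MvPolynomial.C (2 * ((k : ℝ) + 1) * (2 * ((k : ℝ) + 1) + 2 * l + d - 2)) * (rho d ^ k * H)

/-- FIO: decomposition of the polynomials (uses LPO; compare Helper1_BEB/FIS.lean, simpler: no
parity). -/
def FioStmt : Prop := ∀ (d : ℕ) (P : Pl d), 1 ≤ d → P ∈ Submodule.span ℝ
  {Q : Pl d | ∃ (b l : ℕ) (H : Pl d), Har l H ∧ Q = rho d ^ b * H}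

/-- SUO: the operator `Δ + μ` is onto (no hypotheses; compare Helper95_BEB/SUR.lean). -/
def SuoStmt : Prop := ∀ (d : ℕ) (μ : ℝ) (P : Pl d), μ ≠ 0 →
  ∃ ψ : Pl d, lap ψ + MvPolynomial.C μ * ψ = P

/-- COO: functions vanishing on the sphere (no hypotheses; compare Helper94_BEB/COF.lean, simpler:
only the factor with `R² - |x|²` of the cut off). -/
def CooStmt : Prop := ∀ (d : ℕ) (R C : ℝ) (ψ : En d → ℝ), 1 ≤ d → 0 < R →
  ContDiff ℝ ((⊤ : ℕ∞) : WithTop ℕ∞) ψ →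
  (∀ x ∈ BB d R, |ψ x| ≤ C * (R ^ 2 - ‖x‖ ^ 2)) →
  ∃ (f : Lp ℝ 2 (mu (BB d R))) (G : Lp (En d) 2 (mu (BB d R))), (f, G) ∈ H10 (BB d R) ∧
    f =ᵐ[mu (BB d R)] ψ ∧ G =ᵐ[mu (BB d R)] gradient ψ

/-- EVO: values of polynomials (no hypotheses; compare Helper54_BEB/EVP.lean). -/
def EvoStmt : Prop := ∀ d : ℕ, (∀ P : Pl d, ContDiff ℝ ((⊤ : ℕ∞) : WithTop ℕ∞) (ev P)) ∧
  (∀ (P : Pl d) (x : En d) (i : Fin d), gradient (ev P) x i = ev (MvPolynomial.pderiv i P) x) ∧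
  (∀ (P Q : Pl d) x, ev (P + Q) x = ev P x + ev Q x) ∧
  (∀ (P Q : Pl d) x, ev (P * Q) x = ev P x * ev Q x) ∧
  (∀ (c : ℝ) (x : En d), ev (MvPolynomial.C c) x = c) ∧ (∀ x : En d, ev (rho d) x = ‖x‖ ^ 2) ∧
  (∀ (i : Fin d) (x : En d), ev (MvPolynomial.X i) x = x i) ∧
  ∀ (P : Pl d) (R : ℝ), ∃ C : ℝ, ∀ x : En d, ‖x‖ ≤ R → |ev P x| ≤ C

/-- IBO: integration by parts (uses EVO; compare Helper86_BEB/IBP.lean). -/
def IboStmt : Prop := ∀ (d : ℕ) (Ω : Set (En d)) (u : Lp ℝ 2 (mu Ω)) (G : Lp (En d) 2 (mu Ω))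
  (P : Pl d), Dom Ω → (u, G) ∈ H10 Ω →
  ∫ x, ⟪G x, gradient (ev P) x⟫_ℝ ∂(mu Ω) = - ∫ x, u x * ev (lap P) x ∂(mu Ω)

/-- WEO: the weak equation can be tested with `H^1_0` (no hypotheses; compare
Helper39_BEB/WEX.lean). -/
def WeoStmt : Prop := ∀ (d : ℕ) (Ω : Set (En d)) (v f : Lp ℝ 2 (mu Ω))
  (G F : Lp (En d) 2 (mu Ω)), Dom Ω → (∀ ψ, Tst Ω ψ →
    ∫ x, ⟪G x, gradient ψ x⟫_ℝ ∂(mu Ω) = ∫ x, f x * ψ x ∂(mu Ω)) → (v, F) ∈ H10 Ω →
  ∫ x, ⟪G x, F x⟫_ℝ ∂(mu Ω) = ∫ x, f x * v x ∂(mu Ω)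

/-- DEO: density of the polynomials (no hypotheses; compare Helper98_BEB/DEN.lean, simpler: plain
Stone-Weierstrass on the closed ball). -/
def DeoStmt : Prop := ∀ (d : ℕ) (R : ℝ) (u : Lp ℝ 2 (mu (BB d R))), 0 < R →
  (∀ P : Pl d, ∫ x, u x * ev P x ∂(mu (BB d R)) = 0) → u = 0

/-- ORO: an eigenfunction is orthogonal to `(Δ + μ) ψ`, `ψ = 0` on the sphere (uses COO, EVO, IBO,
WEO; compare Helper42_BEB/ORT.lean). -/
def OroStmt : Prop := ∀ (d : ℕ) (R l : ℝ) (u : Lp ℝ 2 (mu (BB d R))) (Q : Pl d), 1 ≤ d → 0 < R →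
  IsEig (BB d R) l u →
  ∫ x, u x * ev (lap ((rho d - MvPolynomial.C (R ^ 2)) * Q) +
    MvPolynomial.C l * ((rho d - MvPolynomial.C (R ^ 2)) * Q)) x ∂(mu (BB d R)) = 0

/-- SPO: the spectrum of the ball (uses CfsStmt of BEB = `Pool.Agent.BEB.H93.cfs` (import it), LPO,
FIO, SUO, EVO, DEO, ORO; compare Helper3_BEB/SPE.lean, first half). With `d = 2c+3`, the constant of
LPO for `H` of degree `l` is `2(k+1)(2(k+1) + 2(l+c) + 1)`: take `ψ_K = Σ_(k ≤ K) cf (l+c) k μ^k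
rho^k H`. -/
def SpoStmt : Prop := ∀ (c : ℕ) (R x : ℝ), 0 < R → 0 < x → (∀ l : ℕ, hs (l + c) x ≠ 0) →
  ∀ u, IsEig (BB (2 * c + 3) R) ((x / R) ^ 2) u → u = 0

/-- PHO: the eigenfunction (uses LPO, EVO, COO, IBO; compare Helper93_BEB/PHI.lean, with `X 0` in
place of `X 2`, `hs (c+1)` in place of `hs 1`, and the ball). -/
def PhoStmt : Prop := ∀ (c : ℕ) (R x : ℝ), 0 < R → 0 < x → hs (c + 1) x = 0 →
  ∃ φ : Lp ℝ 2 (mu (BB (2 * c + 3) R)), φ ≠ 0 ∧ IsEig (BB (2 * c + 3) R) ((x / R) ^ 2) φ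

/-- BAO: conclusion (uses ARO, SPO, PHO). `l = (x0/R)²`, `L = c+1`; `n² l = (n x0/R)²`. -/
def BaoStmt : Prop := ∀ (c : ℕ) (R : ℝ), 0 < R →
  ∃ (l : ℝ) (φ : Lp ℝ 2 (mu (BB (2 * c + 3) R))), φ ≠ 0 ∧ IsEig (BB (2 * c + 3) R) l φ ∧
    ∀ n : ℕ, 2 ≤ n → ∀ u, IsEig (BB (2 * c + 3) R) ((n : ℝ) ^ 2 * l) u → u = 0

end

end Pool.Agent.BEO
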